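import Pool.Agent.MP_ca0a54_nt.H24.Spec
import Pool.Agent.MP_ca0a54_nt.L0.Cauchy
import Pool.Agent.MP_ca0a54_nt.L0.Factor

/-! Row PF: simple fractions, separated sums, and the comparison with zeta on lines. -/

open Complex Filter Topology

namespace Pool.Agent.MP_ca0a54_nt.H23

open Pool.Agent.MP_ca0a54_nt.L0 Pool.Agent.MP_ca0a54_nt.H24

theorem deg_lt {F : Type*} [Field F] (U : Finset ℝ) (v : ℝ → F) (a : F) :
    (Lagrange.nodal U (fun u => v u + a) - Lagrange.nodal U v).degree < U.card := by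
  have h1 := Polynomial.degree_sub_lt_left (p := Lagrange.nodal U (fun u => v u + a))
    (q := Lagrange.nodal U v) (by rw [Lagrange.degree_nodal, Lagrange.degree_nodal])
    Lagrange.nodal_ne_zero
    (by rw [Lagrange.nodal_monic.leadingCoeff, Lagrange.nodal_monic.leadingCoeff])
  rwa [Lagrange.degree_nodal] at h1

theorem sum_bt (U : Finset ℝ) (a : ℝ) : ∑ u ∈ U, bt U a u = a * U.card := by
  rcases U.eq_empty_or_nonempty with rfl | hU
  · simp
  have h1 := Lagrange.coeff_eq_sum (s := U) (v := fun u : ℝ => u) (fun _ _ _ _ h => h)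
    (deg_lt U (fun u => u) a)
  rw [Polynomial.coeff_sub, Lagrange.nodal_eq, Lagrange.nodal_eq,
    Polynomial.prod_X_sub_C_coeff_card_pred _ _ hU.card_pos,
    Polynomial.prod_X_sub_C_coeff_card_pred _ _ hU.card_pos, ← Lagrange.nodal_eq,
    ← Lagrange.nodal_eq, Finset.sum_add_distrib, Finset.sum_const, nsmul_eq_mul] at h1
  have h2 : ∑ u ∈ U, bt U a u = -∑ i ∈ U, Polynomial.eval i
      (Lagrange.nodal U (fun u => u + a) - Lagrange.nodal U fun u => u) /
        ∏ j ∈ U.erase i, (i - j) := by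
    rw [← Finset.sum_neg_distrib]
    refine Finset.sum_congr rfl fun u hu => ?_
    rw [Polynomial.eval_sub, Lagrange.eval_nodal_at_node (v := fun u : ℝ => u) hu,
      Lagrange.eval_nodal, sub_zero]
    unfold bt pv pd
    rw [Finset.prod_congr rfl fun j _ => show u - a - j = u - (j + a) by ring]
  rw [h2, ← h1]
  ring

theorem sub_ne {w : ℂ} (hw : w.im ≠ 0) (u : ℝ) : w - u ≠ 0 := by
  intro h
  have := congrArg Complex.im h
  simp at this
  exact hw this

theorem prod_ne {w : ℂ} (hw : w.im ≠ 0) (U : Finset ℝ) : ∏ u ∈ U, (w - (u : ℂ)) ≠ 0 :=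
  Finset.prod_ne_zero_iff.2 fun u _ => sub_ne hw u

theorem vp_eq (U : Finset ℝ) (a : ℝ) (w : ℂ) (hw : w.im ≠ 0) :
    vp U a w = rat 1 U (fun u => -bt U a u) (fun u => u - a) w := by
  have hwa : (w + a).im ≠ 0 := by simpa using hw
  have hinj : Set.InjOn (fun u : ℝ => (u : ℂ)) U := fun x _ y _ h => by simpa using h
  have h1 := congrArg (Polynomial.eval (w + a))
    (Lagrange.eq_interpolate hinj (deg_lt U (fun u : ℝ => (u : ℂ)) a))
  rw [Lagrange.eval_interpolate_not_at_node _ (fun j _ => sub_ne_zero.1 (sub_ne hwa j)),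
    Polynomial.eval_sub, Lagrange.eval_nodal, Lagrange.eval_nodal,
    Finset.prod_congr rfl fun (j : ℝ) _ => show w + a - (j + a) = w - j by ring] at h1
  have h2 := prod_ne hwa U
  unfold vp rat
  rw [div_eq_iff h2, sub_eq_iff_eq_add.1 h1, add_mul, ofReal_one, one_mul, add_comm, mul_comm]
  congr 2
  refine Finset.sum_congr rfl fun u hu => ?_
  rw [Polynomial.eval_sub, Lagrange.eval_nodal_at_node (v := fun u : ℝ => (u : ℂ)) hu,
    Lagrange.eval_nodal, sub_zero]
  unfold bt pv pd Lagrange.nodalWeight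
  rw [Finset.prod_inv_distrib]
  simp only [neg_neg]
  push_cast
  rw [Finset.prod_congr rfl fun (j : ℝ) _ => show (u : ℂ) - a - j = u - (j + a) by ring,
    show w - ((u : ℂ) - a) = w + a - u by ring]
  ring

theorem pf : PFStmt := by
  intro U a ha sep
  refine ⟨fun u hu => ?_, sum_bt U a, vp_eq U a⟩
  have h1 := (cauchy_pos U a ha sep u hu).2
  unfold bt
  rw [neg_pos, div_neg_iff]
  rcases mul_neg_iff.1 h1 with h2 | h2
  · exact Or.inr ⟨h2.2, h2.1⟩
  · exact Or.inl ⟨h2.2, h2.1⟩

theorem side (W : Finset ℝ) (d : ℝ → ℝ) (a s : ℝ) (ha : 0 < a) (hs : 0 < s) :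
    (∀ u ∈ W, ∀ u' ∈ W, u ≠ u' → a ≤ |d u - d u'|) → (∀ u ∈ W, 0 ≤ d u) →
      ∀ b : ℝ, 0 ≤ b → (∀ u ∈ W, d u ≤ b) →
        ∑ u ∈ W, 1 / (d u ^ 2 + s ^ 2) ≤ 1 / s ^ 2 + 2 / a * (1 / s - 1 / (b + s)) := by
  classical
  have mono : ∀ x y : ℝ, 0 ≤ x → x ≤ y →
      2 / a * (1 / s - 1 / (x + s)) ≤ 2 / a * (1 / s - 1 / (y + s)) := fun x y hx hxy =>
    mul_le_mul_of_nonneg_left (sub_le_sub_left
      (one_div_le_one_div_of_le (by linarith) (by linarith)) _) (by positivity)
  induction W using Finset.induction_on_max_value d with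
  | empty =>
    intro _ _ b hb _
    have := mono 0 b le_rfl hb
    simp only [zero_add, sub_self, mul_zero] at this
    rw [Finset.sum_empty]
    positivity
  | insert m S hm hmax ih =>
    intro sep pos b hb le
    have h0 := pos m (Finset.mem_insert_self _ _)
    have h1 := le m (Finset.mem_insert_self _ _)
    have h2 : ∀ u ∈ S, d u ≤ d m - a := by
      intro u hu
      have h3 := sep u (Finset.mem_insert_of_mem hu) m (Finset.mem_insert_self _ _)
        (fun e => hm (e ▸ hu))
      have h4 := hmax u hu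
      rw [abs_of_nonpos (by linarith)] at h3
      linarith
    rw [Finset.sum_insert hm]
    have h5 := mono _ _ h0 h1
    rcases S.eq_empty_or_nonempty with rfl | ⟨u, hu⟩
    · have h3 := mono 0 b le_rfl hb
      simp only [zero_add, sub_self, mul_zero] at h3
      have h4 : 1 / (d m ^ 2 + s ^ 2) ≤ 1 / s ^ 2 :=
        one_div_le_one_div_of_le (by positivity) (by nlinarith)
      rw [Finset.sum_empty]
      linarith
    · have h3 : 0 ≤ d m - a := (pos u (Finset.mem_insert_of_mem hu)).trans (h2 u hu)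
      have h4 := ih (fun u hu u' hu' => sep u (Finset.mem_insert_of_mem hu) u'
        (Finset.mem_insert_of_mem hu')) (fun u hu => pos u (Finset.mem_insert_of_mem hu)) _ h3 h2
      have h6 : 0 < d m - a + s := by linarith
      have h7 : 0 < d m + s := by linarith
      have h8 : 1 / (d m ^ 2 + s ^ 2) ≤ 2 / ((d m - a + s) * (d m + s)) := by
        rw [div_le_div_iff₀ (by positivity) (by positivity)]
        nlinarith [sq_nonneg (d m - s), mul_pos ha h7]
      have h9 : 2 / a * (1 / s - 1 / (d m + s)) - 2 / a * (1 / s - 1 / (d m - a + s)) =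
          2 / ((d m - a + s) * (d m + s)) := by
        field_simp
        ring
      linarith

theorem side' (W : Finset ℝ) (d : ℝ → ℝ) (a s : ℝ) (ha : 0 < a) (hs : a ≤ s)
    (sep : ∀ u ∈ W, ∀ u' ∈ W, u ≠ u' → a ≤ |d u - d u'|) (pos : ∀ u ∈ W, 0 ≤ d u) :
    ∑ u ∈ W, 1 / (d u ^ 2 + s ^ 2) ≤ 3 / (a * s) := by
  have hs0 : 0 < s := by linarith
  have hb : 0 ≤ ∑ u ∈ W, d u := Finset.sum_nonneg pos
  have h1 := side W d a s ha hs0 sep pos _ hb fun u hu => Finset.single_le_sum pos hu
  have h2 : 1 / s ^ 2 ≤ 1 / (a * s) := one_div_le_one_div_of_le (by positivity) (by nlinarith)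
  have h3 : 2 / a * (1 / s - 1 / (∑ u ∈ W, d u + s)) ≤ 2 / a * (1 / s) :=
    mul_le_mul_of_nonneg_left (sub_le_self _ (by positivity)) (by positivity)
  have h4 : 3 / (a * s) = 1 / (a * s) + 2 / a * (1 / s) := by
    field_simp
    ring
  linarith

theorem sep : SepStmt := by
  classical
  intro U a s x ha hs sp
  have h1 := side' (U.filter fun u => u ≤ x) (fun u => x - u) a s ha hs
    (fun u hu u' hu' hne => by
      have := sp u (Finset.mem_filter.1 hu).1 u' (Finset.mem_filter.1 hu').1 hne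
      rw [abs_sub_comm] at this
      rwa [show x - u - (x - u') = u' - u by ring])
    (fun u hu => by linarith [(Finset.mem_filter.1 hu).2])
  have h2 := side' (U.filter fun u => ¬ u ≤ x) (fun u => u - x) a s ha hs
    (fun u hu u' hu' hne => by
      have := sp u (Finset.mem_filter.1 hu).1 u' (Finset.mem_filter.1 hu').1 hne
      rwa [show u - x - (u' - x) = u - u' by ring])
    (fun u hu => by linarith [not_le.1 (Finset.mem_filter.1 hu).2])
  rw [← Finset.sum_filter_add_sum_filter_not U (fun u => u ≤ x),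
    Finset.sum_congr (s₁ := U.filter fun u => ¬ u ≤ x) rfl fun u _ =>
      show 1 / ((x - u) ^ 2 + s ^ 2) = 1 / ((u - x) ^ 2 + s ^ 2) by ring,
    show 6 / (a * s) = 3 / (a * s) + 3 / (a * s) by ring]
  exact add_le_add h1 h2

/-! ### The comparison on lines -/

section Near

variable {C T t a : ℝ} {U : Finset ℝ} {h : ℂ → ℂ}

theorem ld_eq (H : LF C T t U h) {z : ℂ} (hz : z ∈ Metric.ball (t : ℂ) √T) (h0 : z.im ≠ 0) :
    rat 0 U (fun _ => 1) (fun u => u) z - (ld z - deriv h t) = deriv h t - deriv h z := by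
  have hn := Metric.isOpen_ball.mem_nhds hz
  have hd : DifferentiableAt ℂ h z := H.diff.differentiableAt hn
  have h1 : zf =ᶠ[𝓝 z] fun w => (∏ u ∈ U, (w - (u : ℂ))) * exp (h w) :=
    Filter.eventually_of_mem hn H.fac
  have h2 : ld z = logDeriv (fun w => (∏ u ∈ U, (w - (u : ℂ))) * exp (h w)) z :=
    (logDeriv_congr_nhds h1).eq_of_nhds
  have h3 : logDeriv (fun w => exp (h w)) z = deriv h z := by
    rw [logDeriv_apply, (hd.hasDerivAt.cexp).deriv, mul_div_cancel_left₀ _ (exp_ne_zero _)]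
  have h4 : logDeriv (fun w : ℂ => ∏ u ∈ U, (w - (u : ℂ))) z = ∑ u ∈ U, 1 / (z - (u : ℂ)) := by
    rw [logDeriv_prod (f := fun (u : ℝ) (w : ℂ) => w - (u : ℂ)) (fun u _ => sub_ne h0 u)
      (fun u _ => by fun_prop)]
    refine Finset.sum_congr rfl fun u _ => ?_
    rw [logDeriv_apply, ((hasDerivAt_id' z).sub_const (u : ℂ)).deriv]
  rw [h2, logDeriv_mul (f := fun w : ℂ => ∏ u ∈ U, (w - (u : ℂ))) (g := fun w => exp (h w)) z
    (prod_ne h0 U) (exp_ne_zero _) (by fun_prop) hd.cexp, h3, h4]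
  unfold rat
  push_cast
  ring

theorem ld_le (H : LF C T t U h) {z : ℂ} (hz : z ∈ Metric.ball (t : ℂ) √T) (h0 : z.im ≠ 0) :
    ‖rat 0 U (fun _ => 1) (fun u => u) z - (ld z - deriv h t)‖ ≤
      C * Real.log T / T * ‖z - t‖ := by
  rw [ld_eq H hz h0, norm_sub_rev]
  exact H.d2 z hz t (Metric.mem_ball_self (Metric.pos_of_mem_ball hz))

theorem err_le (H : LF C T t U h) (hK : 0 ≤ C * Real.log T / T) (ha : 0 ≤ a) {z : ℂ}
    (hz : ‖z - t‖ + a < √T) :
    ‖h (z + a) - h z - a * deriv h t‖ ≤ C * Real.log T / T * (‖z - t‖ + a) * a := by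
  have hsub : Metric.closedBall (t : ℂ) (‖z - t‖ + a) ⊆ Metric.ball (t : ℂ) √T :=
    Metric.closedBall_subset_ball hz
  have ht : (t : ℂ) ∈ Metric.ball (t : ℂ) √T :=
    Metric.mem_ball_self (lt_of_le_of_lt (by positivity) hz)
  have h1 := (convex_closedBall (t : ℂ) (‖z - t‖ + a)).norm_image_sub_le_of_norm_hasDerivWithin_le
    (f := fun w => h w - w * deriv h t) (f' := fun w => deriv h w - deriv h t)
    (C := C * Real.log T / T * (‖z - t‖ + a)) (x := z) (y := z + a)
    (fun w hw => by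
      have h2 := (H.diff.differentiableAt (Metric.isOpen_ball.mem_nhds (hsub hw))).hasDerivAt
      have h3 := (hasDerivAt_id' w).mul_const (deriv h t)
      rw [one_mul] at h3
      exact (h2.sub h3).hasDerivWithinAt)
    (fun w hw => (H.d2 w (hsub hw) t ht).trans
      (mul_le_mul_of_nonneg_left (by rwa [Metric.mem_closedBall, dist_eq_norm] at hw) hK))
    (by rw [Metric.mem_closedBall, dist_eq_norm]; linarith)
    (by
      rw [Metric.mem_closedBall, dist_eq_norm, show z + a - t = z - t + a by ring]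
      refine (norm_add_le _ _).trans (le_of_eq ?_)
      rw [norm_real, Real.norm_of_nonneg ha])
  rw [add_sub_cancel_left, norm_real, Real.norm_of_nonneg ha] at h1
  rwa [show h (z + a) - h z - a * deriv h t =
    h (z + a) - (z + a) * deriv h t - (h z - z * deriv h t) by ring]

theorem vp_Bq (H : LF C T t U h) (ha : 0 ≤ a) {z : ℂ} (hz : ‖z - t‖ + a < √T) :
    vp U a z = exp (a * deriv h t) * Bq a z * exp (h (z + a) - h z - a * deriv h t) := by
  have h1 : z ∈ Metric.ball (t : ℂ) √T := by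
    rw [Metric.mem_ball, dist_eq_norm]; linarith
  have h2 : z + a ∈ Metric.ball (t : ℂ) √T := by
    rw [Metric.mem_ball, dist_eq_norm, show z + a - t = z - t + a by ring]
    refine (norm_add_le _ _).trans_lt ?_
    rwa [norm_real, Real.norm_of_nonneg ha]
  unfold vp Bq
  rw [H.fac z h1, H.fac _ h2, exp_sub, exp_sub, mul_div_mul_comm]
  have h3 := exp_ne_zero (h z)
  have h4 := exp_ne_zero (h (z + a))
  have h5 := exp_ne_zero (a * deriv h t)
  generalize (∏ u ∈ U, (z - (u : ℂ))) / ∏ u ∈ U, (z + a - (u : ℂ)) = q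
  field_simp

end Near

theorem rat_le (c₀ : ℝ) (U : Finset ℝ) (ρ v : ℝ → ℝ) {z : ℂ} (hz : z.im ≤ -1 / 2) :
    ‖rat c₀ U ρ v z‖ ≤ |c₀| + 2 * ∑ u ∈ U, |ρ u| := by
  unfold rat
  refine (norm_add_le _ _).trans (add_le_add (by rw [norm_real, Real.norm_eq_abs]) ?_)
  rw [Finset.mul_sum]
  refine (norm_sum_le _ _).trans (Finset.sum_le_sum fun u _ => ?_)
  have h1 : 1 / 2 ≤ ‖z - (v u : ℂ)‖ := by
    refine le_trans ?_ (abs_im_le_norm _)
    rw [sub_im, ofReal_im, sub_zero, abs_of_neg (by linarith)]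
    linarith
  rw [norm_div, norm_real, Real.norm_eq_abs, div_le_iff₀ (by linarith)]
  nlinarith [abs_nonneg (ρ u)]

theorem gauss (s : ℝ) : |s| + 2 ≤ 3 * Real.exp (s ^ 2 / 4) := by
  have h1 := Real.add_one_le_exp (s ^ 2 / 4)
  rw [← sq_abs] at h1 ⊢
  nlinarith [sq_nonneg (|s| - 1), sq_nonneg |s|]

theorem far {T s : ℝ} (hT : 200000 ≤ T) (hs : √T / 2 ≤ |s|) :
    5 * T ^ 2 ≤ Real.exp (s ^ 2 / 4) := by
  have h1 : T / 16 ≤ s ^ 2 / 4 := by
    have h2 := pow_le_pow_left₀ (by positivity) hs 2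
    rw [sq_abs, div_pow, Real.sq_sqrt (by linarith)] at h2
    linarith
  refine le_trans ?_ (Real.exp_le_exp.2 h1)
  have h3 := Real.pow_div_factorial_le_exp (T / 16) (by linarith) 3
  refine le_trans ?_ h3
  have h4 : (0 : ℝ) ≤ T ^ 2 := sq_nonneg T
  norm_num [Nat.factorial]
  nlinarith

theorem norm_le_re {z : ℂ} (t : ℝ) (h1 : -1 ≤ z.im) (h2 : z.im ≤ -1 / 2) :
    ‖z - t‖ ≤ |z.re - t| + 1 := by
  refine (norm_le_abs_re_add_abs_im _).trans ?_
  rw [sub_re, sub_im, ofReal_re, ofReal_im, sub_zero, abs_of_neg (by linarith : z.im < 0)]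
  linarith

theorem line (hPF : PFStmt) : LineStmt := by
  intro C hC
  have hE : 1 ≤ Real.exp (4 * C) := Real.one_le_exp (by linarith)
  refine ⟨24 * C * Real.exp (4 * C), by nlinarith, ?_⟩
  filter_upwards [eventually_ge_atTop (200000 : ℝ), eventually_ge_atTop ((8 * C) ^ 2),
    Real.tendsto_log_atTop.eventually_ge_atTop 4] with T hT hTC hL
  intro a δ t U h a1 a2 aδ hU H
  set L := Real.log T with hLdef
  set E := Real.exp (4 * C) with hEdef
  have hT0 : 0 < T := by linarith
  have hL0 : 0 < L := by linarith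
  have ha : 0 < a := lt_of_lt_of_le (by positivity) a1
  have haL : a * L ≤ 4 := (le_div_iff₀ hL0).1 a2
  have haL' : 1 ≤ a * L := (div_le_iff₀ hL0).1 a1
  have ha1 : a ≤ 1 := by nlinarith
  have hsq : √T * √T = T := Real.mul_self_sqrt hT0.le
  have hs1 : 8 * C ≤ √T := Real.le_sqrt_of_sq_le hTC
  have ht : (t : ℂ) ∈ Metric.ball (t : ℂ) √T := Metric.mem_ball_self (by linarith)
  have hK : 0 ≤ C * L / T := by positivity
  have hcard : (U.card : ℝ) * a ≤ T + a := by
    have h1 := Factor.card_le U δ T T (by linarith) hT0.le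
      (fun u hu => ⟨(hU.mem u hu).1, by linarith [(hU.mem u hu).2]⟩) hU.sep
    have h2 : T / δ ≤ T / a := div_le_div_of_nonneg_left hT0.le ha aδ.le
    have h3 : T / a * a = T := div_mul_cancel₀ _ ha.ne'
    nlinarith
  have hcard' : (U.card : ℝ) ≤ T * L + 4 := by
    have h1 : (0 : ℝ) ≤ U.card := Nat.cast_nonneg _
    nlinarith
  obtain ⟨b1, b2, b3⟩ := hPF U a ha fun u hu u' hu' hne => aδ.trans_le (hU.sep u hu u' hu' hne)
  have hd : ‖(a : ℂ) * deriv h t‖ ≤ 4 * C := by
    rw [norm_mul, norm_real, Real.norm_of_nonneg ha.le]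
    have h1 := mul_le_mul_of_nonneg_left (H.d1 t ht) ha.le
    nlinarith
  have hre := abs_le.1 ((abs_re_le_norm _).trans hd)
  have n1 : ‖exp (a * deriv h t)‖ ≤ E := by
    rw [norm_exp]; exact Real.exp_le_exp.2 hre.2
  have herr : ∀ z : ℂ, ‖z - t‖ + a < √T →
      ‖h (z + a) - h z - a * deriv h t‖ ≤ 4 * C / T * (‖z - t‖ + 1) ∧
        ‖h (z + a) - h z - a * deriv h t‖ ≤ 1 := by
    intro z hz
    have h1 := err_le H hK ha.le hz
    have h2 : C * L / T * (‖z - t‖ + a) * a = a * L * (C / T * (‖z - t‖ + a)) := by ring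
    have h3 : a * L * (C / T * (‖z - t‖ + a)) ≤ 4 * (C / T * (‖z - t‖ + a)) :=
      mul_le_mul_of_nonneg_right haL (by positivity)
    have h4 : C / T * (‖z - t‖ + a) ≤ C / T * (‖z - t‖ + 1) :=
      mul_le_mul_of_nonneg_left (by linarith) (by positivity)
    have h5 : C / T * (‖z - t‖ + a) ≤ C / T * √T :=
      mul_le_mul_of_nonneg_left hz.le (by positivity)
    have h6 : C / T * √T ≤ 1 / 8 := by
      rw [div_mul_eq_mul_div, div_le_iff₀ hT0]
      nlinarith
    rw [← hLdef] at h1
    refine ⟨?_, by linarith⟩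
    rw [show 4 * C / T * (‖z - t‖ + 1) = 4 * (C / T * (‖z - t‖ + 1)) by ring]
    linarith
  have hnear : ∀ z : ℂ, -1 ≤ z.im → z.im ≤ -1 / 2 → |z.re - t| < √T / 2 → ‖z - t‖ + a < √T := by
    intro z h1 h2 h3
    have := norm_le_re t h1 h2
    linarith
  have hCT : 0 < C / T := by positivity
  refine ⟨⟨exp (a * deriv h t), ?_, by nlinarith, ?_, fun z z1 z2 => ?_, fun w w1 w2 => ?_⟩,
    fun z z1 z2 => ?_, fun w w1 w2 => ?_⟩
  · rw [norm_exp, div_le_iff₀ (by positivity)]
    have h1 : 1 ≤ Real.exp (a * deriv h t).re * E := by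
      rw [hEdef, ← Real.exp_add]
      exact Real.one_le_exp (by linarith [hre.1])
    have h2 := Real.exp_pos (a * deriv h t).re
    nlinarith
  · have h1 : exp (a * deriv h t) - ‖exp (a * deriv h t)‖ * exp (-I * (a * L / 2 : ℝ)) =
        ‖exp (a * deriv h t)‖ * exp (-I * (a * L / 2 : ℝ)) *
          (exp (I * (a * ((deriv h t).im + L / 2) : ℝ)) - 1) := by
      have h0 : (a : ℂ) * deriv h t = ((a * deriv h t).re : ℂ) +
          (-I * (a * L / 2 : ℝ) + I * (a * ((deriv h t).im + L / 2) : ℝ)) := by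
        apply Complex.ext <;> simp
        ring
      rw [mul_sub, mul_one, mul_assoc, ← exp_add, norm_exp, ofReal_exp, ← exp_add, ← exp_add,
        ← h0]
    have h2 : ‖exp (-I * (a * L / 2 : ℝ))‖ = 1 := by
      rw [norm_exp]; simp
    rw [h1, norm_mul, norm_mul, h2, mul_one, norm_real, norm_norm]
    have h3 := Real.norm_exp_I_mul_ofReal_sub_one_le (x := a * ((deriv h t).im + L / 2))
    rw [norm_mul, Real.norm_of_nonneg ha.le, Real.norm_eq_abs] at h3
    have h4 : a * |(deriv h t).im + L / 2| ≤ 4 / L * C :=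
      mul_le_mul a2 H.ph (abs_nonneg _) (by positivity)
    refine (mul_le_mul n1 (h3.trans h4) (norm_nonneg _) (by positivity)).trans ?_
    rw [show E * (4 / L * C) = 4 * C * E / L by ring]
    exact div_le_div_of_nonneg_right (by nlinarith) hL0.le
  · have hB := norm_nonneg (Bq a z)
    have hx := Real.exp_pos ((z.re - t) ^ 2 / 4)
    rcases lt_or_ge |z.re - t| (√T / 2) with h1 | h1
    · obtain ⟨h2, h3⟩ := herr z (hnear z z1 z2 h1)
      rw [vp_Bq H ha.le (hnear z z1 z2 h1), ← mul_sub_one, norm_mul, norm_mul]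
      have h4 := norm_le_re t z1 z2
      have h5 := gauss (z.re - t)
      have h6 : ‖exp (h (z + a) - h z - a * deriv h t) - 1‖ ≤
          24 * (C / T) * Real.exp ((z.re - t) ^ 2 / 4) := by
        refine (norm_exp_sub_one_le h3).trans ?_
        have h7 : 4 * C / T * (‖z - t‖ + 1) ≤ 4 * C / T * (3 * Real.exp ((z.re - t) ^ 2 / 4)) :=
          mul_le_mul_of_nonneg_left (by linarith) (by positivity)
        have h8 : 4 * C / T * (3 * Real.exp ((z.re - t) ^ 2 / 4)) =
          12 * (C / T) * Real.exp ((z.re - t) ^ 2 / 4) := by ring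
        linarith
      refine (mul_le_mul (mul_le_mul n1 (le_add_of_nonneg_left zero_le_one) hB (by positivity))
        h6 (norm_nonneg _) (by positivity)).trans (le_of_eq ?_)
      ring
    · have h2 := far hT h1
      have h3 := rat_le 1 U (fun u => -bt U a u) (fun u => u - a) z2
      rw [← b3 z (by linarith), abs_one, Finset.sum_congr rfl fun u hu =>
        show |-bt U a u| = bt U a u by rw [abs_neg, abs_of_pos (b1 u hu)], b2] at h3
      have h4 : ‖exp (a * deriv h t) * Bq a z‖ ≤ E * ‖Bq a z‖ := by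
        rw [norm_mul]; exact mul_le_mul_of_nonneg_right n1 hB
      have h5 : 24 * C * E / T * (1 + ‖Bq a z‖) * (5 * T ^ 2) =
          120 * (C * T) * (E * (1 + ‖Bq a z‖)) := by
        field_simp
        ring
      have h6 : 24 * C * E / T * (1 + ‖Bq a z‖) * (5 * T ^ 2) ≤
          24 * C * E / T * (1 + ‖Bq a z‖) * Real.exp ((z.re - t) ^ 2 / 4) :=
        mul_le_mul_of_nonneg_left h2 (by positivity)
      have h7 : T ≤ C * T := le_mul_of_one_le_left hT0.le hC
      have h8 : 120 * T * (E * (1 + ‖Bq a z‖)) ≤ 120 * (C * T) * (E * (1 + ‖Bq a z‖)) :=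
        mul_le_mul_of_nonneg_right (by linarith) (by positivity)
      have h9 : 0 ≤ E * ‖Bq a z‖ := by positivity
      have h10 : 120 * T * (E * (1 + ‖Bq a z‖)) = 120 * (T * E) + 120 * (T * (E * ‖Bq a z‖)) := by
        ring
      have h11 : T ≤ T * E := le_mul_of_one_le_right hT0.le hE
      have h12 : E * ‖Bq a z‖ ≤ T * (E * ‖Bq a z‖) := le_mul_of_one_le_left h9 (by linarith)
      refine (norm_sub_le _ _).trans ?_
      linarith [mul_comm a (U.card : ℝ)]
  · have h1 : ‖w - t‖ + a < √T := by linarith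
    obtain ⟨h2, h3⟩ := herr w h1
    have h4 : exp (a * deriv h t) * Bq a w - vp U a w =
        (exp (-(h (w + a) - h w - a * deriv h t)) - 1) * vp U a w := by
      rw [sub_mul, one_mul, vp_Bq H ha.le h1, mul_comm (exp (-_)), mul_assoc _ (exp _) (exp _),
        ← exp_add, add_neg_cancel, exp_zero, mul_one]
    rw [h4, norm_mul]
    refine mul_le_mul_of_nonneg_right ((norm_exp_sub_one_le (by rwa [norm_neg])).trans ?_)
      (norm_nonneg _)
    rw [norm_neg, show 24 * C * E / T = 24 * (C / T) * E by ring]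
    have h5 : 4 * C / T * (‖w - t‖ + 1) ≤ 4 * C / T * 2 :=
      mul_le_mul_of_nonneg_left (by linarith) (by positivity)
    rw [show 4 * C / T * 2 = 8 * (C / T) by ring] at h5
    have h6 : 24 * (C / T) ≤ 24 * (C / T) * E := le_mul_of_one_le_right (by positivity) hE
    linarith
  · have hB := norm_nonneg (ld z)
    have hx := Real.exp_pos ((z.re - t) ^ 2 / 4)
    have h0 : C * L / T * 3 ≤ 24 * C * E * L / T := by
      rw [show 24 * C * E * L / T = C * L / T * (24 * E) by ring]
      exact mul_le_mul_of_nonneg_left (by linarith) hK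
    rcases lt_or_ge |z.re - t| (√T / 2) with h1 | h1
    · have h2 := hnear z z1 z2 h1
      refine (ld_le H (by rw [Metric.mem_ball, dist_eq_norm]; linarith) (by linarith)).trans ?_
      have h4 := norm_le_re t z1 z2
      have h5 := gauss (z.re - t)
      have h6 : C * L / T * ‖z - t‖ ≤ C * L / T * (3 * Real.exp ((z.re - t) ^ 2 / 4)) :=
        mul_le_mul_of_nonneg_left (by linarith) hK
      refine h6.trans ?_
      rw [← mul_assoc]
      refine mul_le_mul_of_nonneg_right (h0.trans ?_) hx.le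
      exact le_mul_of_one_le_right (by positivity) (by linarith)
    · have h2 := far hT h1
      have h3 := rat_le 0 U (fun _ => 1) (fun u => u) z2
      rw [abs_zero, abs_one, Finset.sum_const, nsmul_eq_mul, mul_one, zero_add] at h3
      have h4 := H.d1 t ht
      have h5 : C * L / T * 3 * (1 + ‖ld z‖) * (5 * T ^ 2) =
          15 * (C * L * T) * (1 + ‖ld z‖) := by
        field_simp
        ring
      have h6 : C * L / T * 3 * (1 + ‖ld z‖) * (5 * T ^ 2) ≤
          24 * C * E * L / T * (1 + ‖ld z‖) * Real.exp ((z.re - t) ^ 2 / 4) :=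
        mul_le_mul (mul_le_mul_of_nonneg_right h0 (by positivity)) h2 (by positivity)
          (by positivity)
      have h7 : T * L ≤ C * L * T := by
        rw [mul_comm T, mul_assoc]
        exact le_mul_of_one_le_left (by positivity) hC
      have h8 : C * L ≤ C * L * T := le_mul_of_one_le_right (by positivity) (by linarith)
      have h9 : L ≤ T * L := le_mul_of_one_le_left hL0.le (by linarith)
      have h10 : ‖ld z‖ ≤ C * L * T * ‖ld z‖ := le_mul_of_one_le_left hB (by linarith)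
      have h11 : 15 * (C * L * T) * (1 + ‖ld z‖) =
        15 * (C * L * T) + 15 * (C * L * T * ‖ld z‖) := by ring
      rw [← hLdef] at h4
      refine (norm_sub_le _ _).trans ((add_le_add le_rfl (norm_sub_le _ _)).trans ?_)
      linarith
  · refine (ld_le H (by rw [Metric.mem_ball, dist_eq_norm]; linarith) w2).trans ?_
    rw [show 24 * C * E * L / T = C * L / T * (24 * E) by ring]
    exact mul_le_mul_of_nonneg_left (by linarith) hK

end Pool.Agent.MP_ca0a54_nt.H23
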